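import Mathlib

/-!
# Zero sets of polynomial functions on a compact group of matrices
-/

set_option autoImplicit false
set_option linter.unusedSectionVars false
set_option linter.deprecated false

namespace Pool.Agent.NH36.Fs

open MeasureTheory

section algebra

variable {Γ F : Type*} [Group Γ] [Field F] {n : ℕ} (ρ : Γ →* GL (Fin n) F)

/-- The algebra of the polynomial functions in the matrix entries of `ρ`. -/
def polyFun : Subalgebra F (Γ → F) :=
  Algebra.adjoin F (Set.range fun (ij : Fin n × Fin n) (γ : Γ) => (ρ γ).val ij.1 ij.2)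

lemma entry_mem (i j : Fin n) : (fun γ => (ρ γ).val i j) ∈ polyFun ρ :=
  Algebra.subset_adjoin ⟨(i, j), rfl⟩

instance : IsNoetherianRing (polyFun ρ) := by
  have h1 : (polyFun ρ).FG := by
    refine ⟨(Set.finite_range fun (ij : Fin n × Fin n) (γ : Γ) =>
      (ρ γ).val ij.1 ij.2).toFinset, ?_⟩
    rw [Set.Finite.coe_toFinset]
    rfl
  have h2 : Algebra.FiniteType F (polyFun ρ) := (Subalgebra.fg_iff_finiteType _).1 h1
  exact Algebra.FiniteType.isNoetherianRing F _

lemma left_mem (g : Γ) {f : Γ → F} (hf : f ∈ polyFun ρ) : (fun x => f (g * x)) ∈ polyFun ρ := by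
  induction hf using Algebra.adjoin_induction with
  | mem f hf =>
    obtain ⟨⟨i, j⟩, rfl⟩ := hf
    have h : (fun x => (ρ (g * x)).val i j) =
        ∑ k, (ρ g).val i k • fun x => (ρ x).val k j := by
      funext x
      rw [Finset.sum_apply, map_mul, Units.val_mul, Matrix.mul_apply]
      rfl
    change (fun x => (ρ (g * x)).val i j) ∈ polyFun ρ
    rw [h]
    exact Subalgebra.sum_mem _ fun k _ => Subalgebra.smul_mem _ (entry_mem ρ k j) _
  | algebraMap r => exact Subalgebra.algebraMap_mem _ r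
  | add f f' _ _ h h' => exact Subalgebra.add_mem _ h h'
  | mul f f' _ _ h h' => exact Subalgebra.mul_mem _ h h'

lemma right_mem (g : Γ) {f : Γ → F} (hf : f ∈ polyFun ρ) : (fun x => f (x * g)) ∈ polyFun ρ := by
  induction hf using Algebra.adjoin_induction with
  | mem f hf =>
    obtain ⟨⟨i, j⟩, rfl⟩ := hf
    have h : (fun x => (ρ (x * g)).val i j) =
        ∑ k, (ρ g).val k j • fun x => (ρ x).val i k := by
      funext x
      rw [Finset.sum_apply, map_mul, Units.val_mul, Matrix.mul_apply]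
      exact Finset.sum_congr rfl fun k _ => mul_comm _ _
    change (fun x => (ρ (x * g)).val i j) ∈ polyFun ρ
    rw [h]
    exact Subalgebra.sum_mem _ fun k _ => Subalgebra.smul_mem _ (entry_mem ρ i k) _
  | algebraMap r => exact Subalgebra.algebraMap_mem _ r
  | add f f' _ _ h h' => exact Subalgebra.add_mem _ h h'
  | mul f f' _ _ h h' => exact Subalgebra.mul_mem _ h h'

lemma continuous_of_mem [TopologicalSpace Γ] [TopologicalSpace F] [IsTopologicalRing F]
    (hρ : ∀ i j, Continuous fun γ => (ρ γ).val i j) {f : Γ → F} (hf : f ∈ polyFun ρ) :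
    Continuous f := by
  induction hf using Algebra.adjoin_induction with
  | mem f hf =>
    obtain ⟨⟨i, j⟩, rfl⟩ := hf
    exact hρ i j
  | algebraMap r => exact continuous_const
  | add f f' _ _ h h' => exact h.add h'
  | mul f f' _ _ h h' => exact h.mul h'

/-- The subgroup `Δ` is connected: a polynomial function that vanishes on an open subgroup of `Δ`
vanishes on `Δ`. -/
def Conn [TopologicalSpace Γ] (Δ : Subgroup Γ) : Prop :=
  ∀ H : Subgroup Γ, H ≤ Δ → IsOpen (H : Set Γ) → ∀ f ∈ polyFun ρ, (∀ x ∈ H, f x = 0) →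
    ∀ x ∈ Δ, f x = 0

end algebra

section measure

variable {Γ F : Type*} [Group Γ] [TopologicalSpace Γ] [IsTopologicalGroup Γ] [CompactSpace Γ]
  [MeasurableSpace Γ] [BorelSpace Γ] (μ : Measure Γ) [IsProbabilityMeasure μ]
  [μ.IsMulLeftInvariant] [Field F] [TopologicalSpace F] [IsTopologicalRing F] [T1Space F] {n : ℕ}
  (ρ : Γ →* GL (Fin n) F) (hρ : ∀ i j, Continuous fun γ => (ρ γ).val i j)

include hρ

/-- **A polynomial function which vanishes on a subset of positive measure of a connected subgroup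
vanishes on the subgroup.** -/
theorem eq_zero_of_measure {Δ : Subgroup Γ} (hΔ : IsOpen (Δ : Set Γ)) (hc : Conn ρ Δ) {f : Γ → F}
    (hf : f ∈ polyFun ρ) (hpos : μ {x | x ∈ Δ ∧ f x = 0} ≠ 0) : ∀ x ∈ Δ, f x = 0 := by
  classical
  have hΔc : IsClosed (Δ : Set Γ) := Δ.isClosed_of_isOpen hΔ
  let Z : Ideal (polyFun ρ) → Set Γ := fun J => {x | ∀ h ∈ J, (h : Γ → F) x = 0}
  have hZc : ∀ J, IsClosed (Z J) := by
    intro J
    have h1 : Z J = ⋂ h ∈ J, {x | (h : Γ → F) x = 0} := by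
      ext x
      simp only [Z, Set.mem_setOf_eq, Set.mem_iInter]
    rw [h1]
    refine isClosed_biInter fun h _ => ?_
    exact isClosed_singleton.preimage (continuous_of_mem ρ hρ h.2)
  have hZs : ∀ S : Set (polyFun ρ), Z (Ideal.span S) = {x | ∀ h ∈ S, (h : Γ → F) x = 0} := by
    intro S
    ext x
    constructor
    · intro hx h hh
      exact hx h (Ideal.subset_span hh)
    · intro hx h hh
      refine Submodule.span_induction (p := fun (h : polyFun ρ) _ => (h : Γ → F) x = 0) ?_ ?_ ?_ ?_ hh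
      · exact fun h hh => hx h hh
      · rfl
      · intro a b _ _ ha hb
        change (a : Γ → F) x + (b : Γ → F) x = 0
        rw [ha, hb, add_zero]
      · intro a b _ hb
        change (a : Γ → F) x * (b : Γ → F) x = 0
        rw [hb, mul_zero]
  let S : Set (Ideal (polyFun ρ)) := {J | (⟨f, hf⟩ : polyFun ρ) ∈ J ∧ μ ((Δ : Set Γ) ∩ Z J) ≠ 0}
  have hS : S.Nonempty := by
    refine ⟨Ideal.span {⟨f, hf⟩}, Ideal.subset_span rfl, ?_⟩
    rw [hZs]
    refine ne_of_eq_of_ne ?_ hpos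
    congr 1
    ext x
    simp
  obtain ⟨J₀, ⟨hfJ, hJ₀⟩, hmax⟩ := WellFounded.has_min
    (IsWellFounded.wf : WellFounded ((· > ·) : Ideal (polyFun ρ) → Ideal (polyFun ρ) → Prop)) S hS
  set W : Set Γ := (Δ : Set Γ) ∩ Z J₀ with hW
  have hWc : IsClosed W := hΔc.inter (hZc J₀)
  have hWΔ : ∀ x ∈ W, x ∈ Δ := fun x hx => hx.1
  have key : ∀ J : Ideal (polyFun ρ), μ (W ∩ Z J) ≠ 0 → ∀ x ∈ W, x ∈ Z J := by
    intro J hJ x hx
    have h1 : J₀ ⊔ J ∈ S := by
      refine ⟨Ideal.mem_sup_left hfJ, ?_⟩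
      intro h0
      apply hJ
      refine measure_mono_null ?_ h0
      rintro y ⟨⟨hy1, hy2⟩, hy3⟩
      refine ⟨hy1, fun h hh => ?_⟩
      obtain ⟨a, ha, b, hb, rfl⟩ := Submodule.mem_sup.1 hh
      change (a : Γ → F) y + (b : Γ → F) y = 0
      rw [hy2 a ha, hy3 b hb, add_zero]
    have h2 := hmax _ h1
    have h3 : J ≤ J₀ := by
      by_contra h4
      apply h2
      exact lt_of_le_of_ne le_sup_left fun h5 => h4 (by rw [h5]; exact le_sup_right)
    exact fun h hh => hx.2 h (h3 hh)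
  have key2 : ∀ g ∈ Δ, μ (W ∩ {x | g * x ∈ W}) ≠ 0 → ∀ x ∈ W, g * x ∈ W := by
    intro g hg hm x hx
    have h1 := key (Ideal.span (Set.range fun h : J₀ =>
      (⟨fun x => (h.1 : Γ → F) (g * x), left_mem ρ g h.1.2⟩ : polyFun ρ))) (by
      rw [hZs]
      intro h0
      apply hm
      refine measure_mono_null ?_ h0
      rintro y ⟨hy1, hy2⟩
      refine ⟨hy1, ?_⟩
      rintro _ ⟨h, rfl⟩
      exact hy2.2 h.1 h.2) x hx
    rw [hZs] at h1
    exact ⟨Δ.mul_mem hg (hWΔ x hx), fun h hh => h1 _ ⟨⟨h, hh⟩, rfl⟩⟩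
  have key3 : ∀ g ∈ Δ, μ (W ∩ {x | g * x ∈ W}) ≠ 0 → ∀ x ∈ W, g * x ∈ W ∧ g⁻¹ * x ∈ W := by
    intro g hg hm x hx
    refine ⟨key2 g hg hm x hx, key2 g⁻¹ (Δ.inv_mem hg) ?_ x hx⟩
    have h1 := measure_preimage_mul μ g (W ∩ {x | g⁻¹ * x ∈ W})
    have h2 : (fun h => g * h) ⁻¹' (W ∩ {x | g⁻¹ * x ∈ W}) = W ∩ {x | g * x ∈ W} := by
      ext y
      simp only [Set.mem_preimage, Set.mem_inter_iff, Set.mem_setOf_eq, inv_mul_cancel_left]
      exact and_comm
    rw [← h1, h2]
    exact hm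
  let H : Subgroup Γ :=
    { carrier := {g | g ∈ Δ ∧ ∀ x ∈ W, g * x ∈ W ∧ g⁻¹ * x ∈ W}
      one_mem' := ⟨Δ.one_mem, fun x hx => by simpa using hx⟩
      mul_mem' := by
        rintro a b ⟨ha1, ha2⟩ ⟨hb1, hb2⟩
        refine ⟨Δ.mul_mem ha1 hb1, fun x hx => ⟨?_, ?_⟩⟩
        · rw [mul_assoc]
          exact (ha2 _ (hb2 x hx).1).1
        · rw [mul_inv_rev, mul_assoc]
          exact (hb2 _ (ha2 x hx).2).2
      inv_mem' := by
        rintro a ⟨ha1, ha2⟩
        refine ⟨Δ.inv_mem ha1, fun x hx => ⟨(ha2 x hx).2, ?_⟩⟩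
        rw [inv_inv]
        exact (ha2 x hx).1 }
  have hHc : IsClosed (H : Set Γ) := by
    have h1 : (H : Set Γ) = (Δ : Set Γ) ∩
        ⋂ x ∈ W, ({g | g * x ∈ W} ∩ {g | g⁻¹ * x ∈ W}) := by
      ext g
      simp only [Set.mem_inter_iff, Set.mem_iInter]
      exact Iff.rfl
    rw [h1]
    refine hΔc.inter (isClosed_biInter fun x _ => IsClosed.inter ?_ ?_)
    · exact hWc.preimage (continuous_id.mul continuous_const)
    · exact hWc.preimage (continuous_inv.mul continuous_const)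
  -- finite index
  have hfin : Finite (Γ ⧸ H) := by
    by_contra hinf
    rw [not_finite_iff_infinite] at hinf
    obtain ⟨k, hk⟩ : ∃ k : ℕ, 1 < (k : ENNReal) * μ W := by
      obtain ⟨k, hk⟩ := ENNReal.exists_nat_mul_gt hJ₀ ENNReal.one_ne_top
      exact ⟨k, hk⟩
    obtain ⟨s, hs⟩ := Infinite.exists_subset_card_eq (Γ ⧸ H) k
    have hmeas : ∀ q : Γ ⧸ H, MeasurableSet {x | q.out⁻¹ * x ∈ W} := fun q =>
      (hWc.preimage (continuous_const.mul continuous_id)).measurableSet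
    have hmu : ∀ q : Γ ⧸ H, μ {x | q.out⁻¹ * x ∈ W} = μ W := fun q =>
      measure_preimage_mul μ (q.out)⁻¹ W
    have hdis : Set.Pairwise (↑s : Set (Γ ⧸ H))
        (Function.onFun (AEDisjoint μ) fun q => {x | q.out⁻¹ * x ∈ W}) := by
      intro q _ q' _ hqq'
      change μ ({x | q.out⁻¹ * x ∈ W} ∩ {x | q'.out⁻¹ * x ∈ W}) = 0
      by_contra hne
      set g := q'.out⁻¹ * q.out with hg
      have h1 := measure_preimage_mul μ q.out ({x | q.out⁻¹ * x ∈ W} ∩ {x | q'.out⁻¹ * x ∈ W})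
      have h2 : (fun h => q.out * h) ⁻¹' ({x | q.out⁻¹ * x ∈ W} ∩ {x | q'.out⁻¹ * x ∈ W}) =
          W ∩ {x | g * x ∈ W} := by
        ext y
        simp only [Set.mem_preimage, Set.mem_inter_iff, Set.mem_setOf_eq, inv_mul_cancel_left, hg,
          mul_assoc]
      rw [h2] at h1
      have h3 : μ (W ∩ {x | g * x ∈ W}) ≠ 0 := by rw [h1]; exact hne
      obtain ⟨y, hy1, hy2⟩ := nonempty_of_measure_ne_zero h3
      have hgΔ : g ∈ Δ := by
        have h4 := Δ.mul_mem (hWΔ _ hy2) (Δ.inv_mem (hWΔ y hy1))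
        rwa [mul_inv_cancel_right] at h4
      have h5 : g ∈ H := ⟨hgΔ, key3 g hgΔ h3⟩
      apply hqq'
      have h6 : ((q'.out : Γ) : Γ ⧸ H) = ((q.out : Γ) : Γ ⧸ H) := by
        rw [QuotientGroup.eq]
        exact h5
      rw [QuotientGroup.out_eq', QuotientGroup.out_eq'] at h6
      exact h6.symm
    have h1 := measure_biUnion_finset₀ hdis fun q _ => (hmeas q).nullMeasurableSet
    have h2 : μ (⋃ q ∈ s, {x | q.out⁻¹ * x ∈ W}) ≤ 1 := prob_le_one
    rw [h1, Finset.sum_congr rfl fun q _ => hmu q, Finset.sum_const, hs, nsmul_eq_mul] at h2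
    exact absurd h2 (not_le.2 hk)
  have hHfi : H.FiniteIndex := Subgroup.finiteIndex_of_finite_quotient
  have hHo : IsOpen (H : Set Γ) := H.isOpen_of_isClosed_of_finiteIndex hHc
  obtain ⟨x₀, hx₀⟩ := nonempty_of_measure_ne_zero hJ₀
  have h1 := hc H (fun g hg => hg.1) hHo (fun y => f (y * x₀)) (right_mem ρ x₀ hf) (fun y hy =>
    (hy.2 x₀ hx₀).1.2 ⟨f, hf⟩ hfJ)
  intro x hx
  have h2 := h1 (x * x₀⁻¹) (Δ.mul_mem hx (Δ.inv_mem (hWΔ x₀ hx₀)))
  simpa using h2

end measure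

section component

variable {Γ F : Type*} [Group Γ] [TopologicalSpace Γ] [IsTopologicalGroup Γ] [CompactSpace Γ]
  [Field F] {n : ℕ} (ρ : Γ →* GL (Fin n) F)

/-- There is a connected open normal subgroup. -/
theorem exists_conn : ∃ Δ : Subgroup Γ, Δ.Normal ∧ IsOpen (Δ : Set Γ) ∧ Conn ρ Δ := by
  classical
  let I : Subgroup Γ → Ideal (polyFun ρ) := fun H =>
    { carrier := {f | ∀ x ∈ H, (f : Γ → F) x = 0}
      add_mem' := by
        intro a b ha hb x hx
        change (a : Γ → F) x + (b : Γ → F) x = 0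
        rw [ha x hx, hb x hx, add_zero]
      zero_mem' := fun x _ => rfl
      smul_mem' := by
        intro a b hb x hx
        change (a : Γ → F) x * (b : Γ → F) x = 0
        rw [hb x hx, mul_zero] }
  let S : Set (Ideal (polyFun ρ)) := {J | ∃ H : Subgroup Γ, IsOpen (H : Set Γ) ∧ I H = J}
  obtain ⟨J₀, ⟨H₀, hH₀, rfl⟩, hmax⟩ := WellFounded.has_min
    (IsWellFounded.wf : WellFounded ((· > ·) : Ideal (polyFun ρ) → Ideal (polyFun ρ) → Prop)) S
    ⟨I ⊤, ⊤, isOpen_univ, rfl⟩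
  have hmax' : ∀ H : Subgroup Γ, IsOpen (H : Set Γ) → I H₀ ≤ I H → I H = I H₀ := by
    intro H hH hle
    by_contra hne
    exact hmax (I H) ⟨H, hH, rfl⟩ (lt_of_le_of_ne hle (Ne.symm hne))
  have hfi : H₀.FiniteIndex := by
    have := H₀.quotient_finite_of_isOpen hH₀
    exact Subgroup.finiteIndex_of_finite_quotient
  have hno : IsOpen (H₀.normalCore : Set Γ) := by
    refine Subgroup.isOpen_of_isClosed_of_finiteIndex _ ?_
    exact H₀.normalCore_isClosed (H₀.isClosed_of_isOpen hH₀)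
  have hle : ∀ {H H' : Subgroup Γ}, H ≤ H' → I H' ≤ I H := fun h f hf x hx => hf x (h hx)
  have h1 := hmax' H₀.normalCore hno (hle H₀.normalCore_le)
  refine ⟨H₀.normalCore, inferInstance, hno, fun H hH hHo f hf h0 x hx => ?_⟩
  have h2 := hmax' H hHo (h1 ▸ hle hH)
  have h3 : (⟨f, hf⟩ : polyFun ρ) ∈ I H := h0
  rw [h2, ← h1] at h3
  exact h3 x hx

end component

end Pool.Agent.NH36.Fs
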