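import Pool.Agent.R401.Eng

/-!
# Sets of measure zero and densities
-/

set_option autoImplicit false
set_option linter.unusedSectionVars false

namespace Pool.Agent.NH36.Fs

open MeasureTheory NumberField Filter Topology IsDedekindDomain Pool.Agent.W401.Cheb

section measure

variable {Γ : Type*} [Group Γ] [TopologicalSpace Γ] [IsTopologicalGroup Γ] [CompactSpace Γ]
  [MeasurableSpace Γ] [BorelSpace Γ] (μ : Measure Γ) [IsProbabilityMeasure μ]
  [μ.IsMulLeftInvariant]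

/-- The measure of a union of cosets of an open subgroup. -/
theorem measure_cosets (U : Subgroup Γ) (hU : IsOpen (U : Set Γ)) (C : Set Γ)
    (hC : ∀ σ ∈ C, ∀ u ∈ U, σ * u ∈ C) :
    μ C = (((QuotientGroup.mk : Γ → Γ ⧸ U) '' C).ncard : ENNReal) / (Nat.card (Γ ⧸ U) : ENNReal) := by
  classical
  have hfin : Finite (Γ ⧸ U) := U.quotient_finite_of_isOpen hU
  have hcoset : ∀ q : Γ ⧸ U, {x : Γ | (x : Γ ⧸ U) = q} = (fun x => q.out⁻¹ * x) ⁻¹' (U : Set Γ) := by
    intro q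
    ext x
    rw [Set.mem_setOf_eq, Set.mem_preimage, SetLike.mem_coe, ← QuotientGroup.eq,
      QuotientGroup.out_eq']
    exact eq_comm
  have hmeas : ∀ q : Γ ⧸ U, MeasurableSet {x : Γ | (x : Γ ⧸ U) = q} := by
    intro q
    rw [hcoset]
    exact (hU.preimage (continuous_const.mul continuous_id)).measurableSet
  have hmu : ∀ q : Γ ⧸ U, μ {x : Γ | (x : Γ ⧸ U) = q} = μ U := by
    intro q
    rw [hcoset]
    exact measure_preimage_mul μ _ _
  have hD : ∀ D : Finset (Γ ⧸ U), μ {x : Γ | (x : Γ ⧸ U) ∈ D} = D.card * μ U := by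
    intro D
    have h1 : {x : Γ | (x : Γ ⧸ U) ∈ D} = ⋃ q ∈ D, {x : Γ | (x : Γ ⧸ U) = q} := by
      ext x
      simp
    rw [h1, measure_biUnion_finset]
    · rw [Finset.sum_congr rfl fun q _ => hmu q, Finset.sum_const, nsmul_eq_mul]
    · intro q _ q' _ hqq'
      rw [Function.onFun, Set.disjoint_left]
      intro x hx hx'
      exact hqq' (hx.symm.trans hx')
    · exact fun q _ => hmeas q
  let _ : Fintype (Γ ⧸ U) := Fintype.ofFinite _
  have hun := hD Finset.univ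
  have h2 : {x : Γ | (x : Γ ⧸ U) ∈ (Finset.univ : Finset (Γ ⧸ U))} = Set.univ := by
    ext x; simp
  rw [h2, measure_univ, Finset.card_univ, ← Nat.card_eq_fintype_card] at hun
  have hpos : (Nat.card (Γ ⧸ U) : ENNReal) ≠ 0 := by
    exact_mod_cast Nat.card_pos.ne'
  have hU' : μ U = 1 / (Nat.card (Γ ⧸ U) : ENNReal) := by
    rw [ENNReal.eq_div_iff hpos (ENNReal.natCast_ne_top _)]
    exact hun.symm
  have h3 : C = {x : Γ | (x : Γ ⧸ U) ∈
      (Set.toFinite ((QuotientGroup.mk : Γ → Γ ⧸ U) '' C)).toFinset} := by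
    ext x
    rw [Set.mem_setOf_eq, Set.Finite.mem_toFinset]
    constructor
    · exact fun hx => ⟨x, hx, rfl⟩
    · rintro ⟨y, hy, hyx⟩
      have h4 := hC y hy (y⁻¹ * x) (QuotientGroup.eq.1 hyx)
      rwa [mul_inv_cancel_left] at h4
  conv_lhs => rw [h3]
  rw [hD, hU', Set.ncard_eq_toFinset_card _ (Set.toFinite _), mul_one_div]

end measure

section dens

variable {K : Type} [Field K] [NumberField K]

/-- **A set of elements which is contained in a closed set of measure zero and invariant under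
conjugation contains Frobenius elements only at a set of places of density zero.** -/
theorem dens_null [MeasurableSpace (GK K)] [BorelSpace (GK K)] (μ : Measure (GK K))
    [IsProbabilityMeasure μ] [μ.IsMulLeftInvariant] [μ.Regular] (A Z : Set (GK K)) (hAZ : A ⊆ Z)
    (hZ : IsClosed Z) (hμ : μ Z = 0) (hA : ∀ σ ∈ A, ∀ τ : GK K, τ * σ * τ⁻¹ ∈ A) :
    Tendsto (dens fun v : HeightOneSpectrum (𝓞 K) => ∃ σ ∈ A, IsFrob v σ) atTop (𝓝 0) := by
  classical
  set T := closure A with hT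
  have hTc : ∀ σ ∈ T, ∀ τ : GK K, τ * σ * τ⁻¹ ∈ T := by
    intro σ hσ τ
    have h1 : Continuous fun x : GK K => τ * x * τ⁻¹ :=
      (continuous_const.mul continuous_id).mul continuous_const
    exact map_mem_closure (f := fun x : GK K => τ * x * τ⁻¹) h1 hσ fun x hx => hA x hx τ
  have hTμ : μ T = 0 := measure_mono_null (closure_minimal hAZ hZ) hμ
  have hTk : IsCompact T := isClosed_closure.isCompact
  rw [Metric.tendsto_atTop]
  intro ε hε
  obtain ⟨O, hTO, hO, hOε⟩ := T.exists_isOpen_lt_of_lt (μ := μ) (ENNReal.ofReal (ε / 2)) (by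
    rw [hTμ]
    exact ENNReal.ofReal_pos.2 (by linarith))
  obtain ⟨V, hV, hVO⟩ := compact_open_separated_mul_right hTk hO hTO
  obtain ⟨V', hV'1, hV'2, hV'3⟩ := mem_nhds_iff.1 hV
  obtain ⟨U, hU⟩ := ProfiniteGrp.exist_openNormalSubgroup_sub_open_nhds_of_one hV'2 hV'3
  have hUn : (U : Subgroup (GK K)).Normal := U.isNormal'
  have hUo : IsOpen ((U : Subgroup (GK K)) : Set (GK K)) := U.isOpen'
  set C : Set (GK K) := {x | ∃ σ ∈ T, ∃ u ∈ (U : Subgroup (GK K)), σ * u = x} with hC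
  have hC1 : ∀ σ ∈ C, ∀ τ : GK K, τ * σ * τ⁻¹ ∈ C := by
    rintro _ ⟨σ, hσ, u, hu, rfl⟩ τ
    refine ⟨τ * σ * τ⁻¹, hTc σ hσ τ, τ * u * τ⁻¹, hUn.conj_mem u hu τ, by group⟩
  have hC2 : ∀ σ ∈ C, ∀ u ∈ (U : Subgroup (GK K)), σ * u ∈ C := by
    rintro _ ⟨σ, hσ, u, hu, rfl⟩ u' hu'
    exact ⟨σ, hσ, u * u', (U : Subgroup (GK K)).mul_mem hu hu', by group⟩
  have hCO : C ⊆ O := by
    rintro _ ⟨σ, hσ, u, hu, rfl⟩
    exact hVO (Set.mul_mem_mul hσ (hV'1 (hU hu)))
  have hcheb := Pool.Agent.Y142.chebK K U hUo C hC1 hC2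
  set δ : ℝ := (((QuotientGroup.mk : GK K → GK K ⧸ (U : Subgroup (GK K))) '' C).ncard : ℝ) /
    (Nat.card (GK K ⧸ (U : Subgroup (GK K))) : ℝ) with hδ
  have hfin : Finite (GK K ⧸ (U : Subgroup (GK K))) := Subgroup.quotient_finite_of_isOpen _ hUo
  have hδε : δ < ε / 2 := by
    have h1 := measure_cosets μ (U : Subgroup (GK K)) hUo C hC2
    have h2 : μ C < ENNReal.ofReal (ε / 2) := lt_of_le_of_lt (measure_mono hCO) hOε
    rw [h1] at h2
    have h3 : (0 : ℝ) < Nat.card (GK K ⧸ (U : Subgroup (GK K))) := by exact_mod_cast Nat.card_pos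
    have h4 : ENNReal.ofReal δ = (((QuotientGroup.mk : GK K → GK K ⧸ (U : Subgroup (GK K))) ''
        C).ncard : ENNReal) / (Nat.card (GK K ⧸ (U : Subgroup (GK K))) : ENNReal) := by
      rw [hδ, ENNReal.ofReal_div_of_pos h3, ENNReal.ofReal_natCast, ENNReal.ofReal_natCast]
    rw [← h4] at h2
    exact (ENNReal.ofReal_lt_ofReal_iff (by linarith)).1 h2
  obtain ⟨N₀, hN₀⟩ := (Metric.tendsto_atTop.1 hcheb) (ε / 2) (by linarith)
  refine ⟨N₀, fun N hN => ?_⟩
  have h1 := hN₀ N hN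
  have h2 : dens (fun v : HeightOneSpectrum (𝓞 K) => ∃ σ ∈ A, IsFrob v σ) N ≤
      dens (fun v : HeightOneSpectrum (𝓞 K) => ∃ σ ∈ C, IsFrob v σ) N := by
    refine Pool.Agent.R401.Eng.dens_le (fun v => ?_) N
    rintro ⟨σ, hσ, hv⟩
    exact ⟨σ, ⟨σ, subset_closure hσ, 1, (U : Subgroup (GK K)).one_mem, mul_one σ⟩, hv⟩
  have h3 : 0 ≤ dens (fun v : HeightOneSpectrum (𝓞 K) => ∃ σ ∈ A, IsFrob v σ) N := by
    unfold dens
    positivity
  rw [Real.dist_eq, abs_lt] at h1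
  rw [Real.dist_eq, sub_zero, abs_of_nonneg h3]
  linarith [h1.2]

end dens

end Pool.Agent.NH36.Fs
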