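import Pool.Agent.NH36.Fs.Alg

/-!
# Eigenvalues, semisimple matrices and polynomial functions
-/

set_option autoImplicit false
set_option linter.unusedSectionVars false

namespace Pool.Agent.NH36.Fs

open Polynomial

/-! The trace of a power (this part follows `Pool.Agent.W63.HS.TR`). -/
section trace

variable {ι : Type*} [Fintype ι] [DecidableEq ι] {K : Type*} [Field K] [IsAlgClosed K]

lemma charpoly_prod (A : Matrix ι ι K) : A.charpoly = (A.charpoly.roots.map fun a => X - C a).prod :=
  (IsAlgClosed.splits A.charpoly).eq_prod_roots_of_monic A.charpoly_monic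

lemma card_roots' (A : Matrix ι ι K) : A.charpoly.roots.card = Fintype.card ι := by
  rw [← (IsAlgClosed.splits A.charpoly).natDegree_eq_card_roots, A.charpoly_natDegree_eq_dim]

lemma det_scalar_sub (A : Matrix ι ι K) (r : K) :
    (Matrix.scalar ι r - A).det = (A.charpoly.roots.map fun a => r - a).prod := by
  rw [← Matrix.eval_charpoly]
  conv_lhs => rw [charpoly_prod A]
  rw [eval_multiset_prod, Multiset.map_map]
  congr 1
  refine Multiset.map_congr rfl fun a _ => ?_
  simp

lemma prod_neg_map (s : Multiset K) (f : K → K) :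
    (s.map fun a => - f a).prod = (-1) ^ s.card * (s.map f).prod := by
  induction s using Multiset.induction_on with
  | empty => simp
  | cons a s ih => rw [Multiset.map_cons, Multiset.prod_cons, ih, Multiset.map_cons,
      Multiset.prod_cons, Multiset.card_cons, pow_succ]; ring

lemma det_sub_scalar (A : Matrix ι ι K) (r : K) :
    (A - Matrix.scalar ι r).det = (A.charpoly.roots.map fun a => a - r).prod := by
  have h1 : A - Matrix.scalar ι r = - (Matrix.scalar ι r - A) := by abel
  rw [h1, Matrix.det_neg, det_scalar_sub, ← card_roots' A, ← prod_neg_map]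
  congr 1
  refine Multiset.map_congr rfl fun a _ => by ring

lemma det_aeval (A : Matrix ι ι K) {p : K[X]} (hp : p.Monic) :
    (aeval A p).det = (A.charpoly.roots.map fun a => p.eval a).prod := by
  let φ : K[X] →* K := Matrix.detMonoidHom.comp (aeval A : K[X] →ₐ[K] Matrix ι ι K).toMonoidHom
  have hφ : ∀ q, φ q = (aeval A q).det := fun q => rfl
  have hp2 := (IsAlgClosed.splits p).eq_prod_roots_of_monic hp
  rw [← hφ]
  conv_lhs => rw [hp2]
  rw [map_multiset_prod, Multiset.map_map]
  have h1 : (p.roots.map (φ ∘ fun a => X - C a)) =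
      p.roots.map fun r => (A.charpoly.roots.map fun a => a - r).prod := by
    refine Multiset.map_congr rfl fun r _ => ?_
    rw [Function.comp_apply, hφ, ← det_sub_scalar]
    congr 1
    simp [Matrix.algebraMap_eq_diagonal, Matrix.scalar_apply]
  rw [h1, Multiset.prod_map_prod_map]
  congr 1
  refine Multiset.map_congr rfl fun a _ => ?_
  conv_rhs => rw [hp2]
  rw [eval_multiset_prod, Multiset.map_map]
  congr 1
  refine Multiset.map_congr rfl fun r _ => ?_
  simp

lemma charpoly_pow (A : Matrix ι ι K) {n : ℕ} (hn : n ≠ 0) :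
    (A ^ n).charpoly = (A.charpoly.roots.map fun a => X - C (a ^ n)).prod := by
  apply Polynomial.funext
  intro s
  rw [Matrix.eval_charpoly, eval_multiset_prod, Multiset.map_map]
  have h1 : Matrix.scalar ι s - A ^ n = - (aeval A (X ^ n - C s)) := by
    simp [Matrix.algebraMap_eq_diagonal, Matrix.scalar_apply]
  rw [h1, Matrix.det_neg, det_aeval A (monic_X_pow_sub_C s hn), ← card_roots' A, ← prod_neg_map]
  congr 1
  refine Multiset.map_congr rfl fun a _ => ?_
  simp

/-- The trace of a power is the sum of the powers of the eigenvalues. -/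
theorem trace_pow (A : Matrix ι ι K) (n : ℕ) :
    (A ^ n).trace = (A.charpoly.roots.map fun a => a ^ n).sum := by
  rcases Nat.eq_zero_or_pos n with rfl | hn
  · simp only [pow_zero, Matrix.trace_one, Multiset.map_const', Multiset.sum_replicate,
      nsmul_eq_mul, mul_one]
    rw [card_roots' A]
  · rw [Matrix.trace_eq_sum_roots_charpoly, charpoly_pow A hn.ne']
    have : (A.charpoly.roots.map fun a => X - C (a ^ n)) =
        ((A.charpoly.roots.map fun a => a ^ n).map fun a => X - C a) := by
      rw [Multiset.map_map]; rfl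
    rw [this, roots_multiset_prod_X_sub_C]

end trace

variable {F : Type*} [Field F] {n : ℕ}

/-- The number of the distinct eigenvalues of a matrix (in an algebraic closure). -/
noncomputable def numEig (A : Matrix (Fin n) (Fin n) F) : ℕ :=
  (A.charpoly.rootSet (AlgebraicClosure F)).ncard

/-- The matrix is semisimple, that is, diagonalizable over an algebraic closure (in characteristic
`0`). -/
def SS (A : Matrix (Fin n) (Fin n) F) : Prop := Module.End.IsSemisimple (Matrix.toLin' A)

/-- The determinant of the matrix of the traces of `A ^ (i + j)`, `i, j < r`. -/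
noncomputable def hank (r : ℕ) (A : Matrix (Fin n) (Fin n) F) : F :=
  (Matrix.of fun i j : Fin r => (A ^ ((i : ℕ) + j)).trace).det

lemma numEig_eq (A : Matrix (Fin n) (Fin n) F) [DecidableEq (AlgebraicClosure F)] :
    numEig A = (A.map (algebraMap F (AlgebraicClosure F))).charpoly.roots.toFinset.card := by
  unfold numEig
  rw [rootSet_def, aroots_def, Set.ncard_coe_finset, Matrix.charpoly_map]

lemma numEig_le (A : Matrix (Fin n) (Fin n) F) : numEig A ≤ n := by
  classical
  rw [numEig_eq]
  refine (Multiset.toFinset_card_le _).trans ?_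
  rw [card_roots', Fintype.card_fin]

lemma hank_map (r : ℕ) (A : Matrix (Fin n) (Fin n) F) [DecidableEq (AlgebraicClosure F)] :
    algebraMap F (AlgebraicClosure F) (hank r A) =
      (Matrix.of fun i j : Fin r =>
        ∑ a ∈ (A.map (algebraMap F (AlgebraicClosure F))).charpoly.roots.toFinset,
          ((A.map (algebraMap F (AlgebraicClosure F))).charpoly.roots.count a :
            AlgebraicClosure F) * a ^ ((i : ℕ) + j)).det := by
  unfold hank
  rw [RingHom.map_det]
  congr 1
  ext i j
  simp only [RingHom.mapMatrix_apply, Matrix.map_apply, Matrix.of_apply]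
  have h1 : algebraMap F (AlgebraicClosure F) (A ^ ((i : ℕ) + j)).trace =
      ((A.map (algebraMap F (AlgebraicClosure F))) ^ ((i : ℕ) + j)).trace := by
    rw [← Matrix.map_pow]
    exact AddMonoidHom.map_trace (algebraMap F (AlgebraicClosure F)).toAddMonoidHom _
  rw [h1, trace_pow, Finset.sum_multiset_map_count]
  exact Finset.sum_congr rfl fun a _ => nsmul_eq_mul _ _

/-- The determinant is zero if there are less than `r` eigenvalues. -/
lemma hank_eq_zero {r : ℕ} {A : Matrix (Fin n) (Fin n) F} (h : numEig A < r) : hank r A = 0 := by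
  classical
  apply (algebraMap F (AlgebraicClosure F)).injective
  rw [map_zero, hank_map]
  rw [numEig_eq] at h
  set R := (A.map (algebraMap F (AlgebraicClosure F))).charpoly.roots with hR
  rw [← Matrix.exists_mulVec_eq_zero_iff]
  let q : (AlgebraicClosure F)[X] := ∏ a ∈ R.toFinset, (X - C a)
  have hq : q.Monic := monic_prod_of_monic _ _ fun a _ => monic_X_sub_C a
  have hdeg : q.natDegree = R.toFinset.card := by
    rw [natDegree_prod_of_monic _ _ fun a _ => monic_X_sub_C a]
    simp
  refine ⟨fun j => q.coeff j, ?_, ?_⟩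
  · intro h0
    have h1 := congrFun h0 ⟨q.natDegree, by rw [hdeg]; exact h⟩
    simp only [Pi.zero_apply] at h1
    rw [hq.coeff_natDegree] at h1
    exact one_ne_zero h1
  · ext i
    rw [Matrix.mulVec, dotProduct, Pi.zero_apply]
    simp only [Matrix.of_apply, Finset.sum_mul]
    rw [Finset.sum_comm]
    refine Finset.sum_eq_zero fun a ha => ?_
    have h2 : q.eval a = ∑ j : Fin r, q.coeff j * a ^ (j : ℕ) := by
      rw [Fin.sum_univ_eq_sum_range fun j => q.coeff j * a ^ j]
      exact eval_eq_sum_range' (by rw [hdeg]; exact h) a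
    have h3 : q.eval a = 0 := by
      rw [eval_prod]
      exact Finset.prod_eq_zero ha (by simp)
    rw [h3] at h2
    have h4 : ∀ j : Fin r, (R.count a : AlgebraicClosure F) * a ^ ((i : ℕ) + j) * q.coeff j =
        (R.count a : AlgebraicClosure F) * a ^ (i : ℕ) * (q.coeff j * a ^ (j : ℕ)) := by
      intro j
      rw [pow_add]
      ring
    rw [Finset.sum_congr rfl fun j _ => h4 j, ← Finset.mul_sum, ← h2, mul_zero]

/-- The determinant is not zero if there are exactly `r` eigenvalues. -/
lemma hank_ne_zero [CharZero F] {r : ℕ} {A : Matrix (Fin n) (Fin n) F} (h : numEig A = r) :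
    hank r A ≠ 0 := by
  classical
  intro h0
  have h1 := congrArg (algebraMap F (AlgebraicClosure F)) h0
  rw [map_zero, hank_map] at h1
  rw [numEig_eq] at h
  set R := (A.map (algebraMap F (AlgebraicClosure F))).charpoly.roots with hR
  let e : Fin r ≃ R.toFinset := (Fintype.equivFinOfCardEq (by rw [Fintype.card_coe]; exact h)).symm
  have h2 : (Matrix.of fun i j : Fin r => ∑ a ∈ R.toFinset,
      (R.count a : AlgebraicClosure F) * a ^ ((i : ℕ) + j)) =
      (Matrix.vandermonde fun k => (e k : AlgebraicClosure F)).transpose *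
        Matrix.diagonal (fun k => (R.count (e k : AlgebraicClosure F) : AlgebraicClosure F)) *
        Matrix.vandermonde fun k => (e k : AlgebraicClosure F) := by
    ext i j
    rw [Matrix.mul_apply]
    simp only [Matrix.mul_diagonal, Matrix.transpose_apply, Matrix.vandermonde_apply,
      Matrix.of_apply]
    rw [← Finset.sum_coe_sort, ← Equiv.sum_comp e]
    refine Finset.sum_congr rfl fun k _ => ?_
    rw [pow_add]
    ring
  have hinj : Function.Injective fun k => (e k : AlgebraicClosure F) :=
    Subtype.val_injective.comp e.injective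
  have h3 := Matrix.det_vandermonde_ne_zero_iff.2 hinj
  rw [h2, Matrix.det_mul, Matrix.det_mul, Matrix.det_transpose, Matrix.det_diagonal] at h1
  rcases mul_eq_zero.1 h1 with h1 | h1
  · rcases mul_eq_zero.1 h1 with h1 | h1
    · exact h3 h1
    · obtain ⟨k, -, hk⟩ := Finset.prod_eq_zero_iff.1 h1
      rw [Nat.cast_eq_zero, Multiset.count_eq_zero] at hk
      exact hk (Multiset.mem_toFinset.1 (e k).2)
  · exact h3 h1

lemma ss_iff [CharZero F] (A : Matrix (Fin n) (Fin n) F) : SS A ↔ Squarefree (minpoly F A) := by
  unfold SS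
  rw [← Matrix.minpoly_toLin']
  constructor
  · intro h
    exact h.minpoly_squarefree
  · intro h
    exact Module.End.isSemisimple_of_squarefree_aeval_eq_zero h (minpoly.aeval _ _)

lemma isIntegral_mat (A : Matrix (Fin n) (Fin n) F) : IsIntegral F A := Algebra.IsIntegral.isIntegral A

/-- The eigenvalues are roots of the minimal polynomial. -/
lemma rootSet_eq (A : Matrix (Fin n) (Fin n) F) :
    A.charpoly.rootSet (AlgebraicClosure F) = (minpoly F A).rootSet (AlgebraicClosure F) := by
  have hm : minpoly F A ≠ 0 := minpoly.ne_zero (isIntegral_mat A)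
  have hc : A.charpoly ≠ 0 := A.charpoly_monic.ne_zero
  ext x
  rw [mem_rootSet_of_ne hc, mem_rootSet_of_ne hm]
  constructor
  · intro hx
    have h1 : (A.map (algebraMap F (AlgebraicClosure F))).charpoly.IsRoot x := by
      rw [Matrix.charpoly_map, IsRoot, eval_map_algebraMap]
      exact hx
    have h2 : LinearMap.charpoly (Matrix.toLin' (A.map (algebraMap F (AlgebraicClosure F)))) |>.IsRoot
        x := by
      rw [Matrix.charpoly_toLin']
      exact h1
    rw [← Module.End.hasEigenvalue_iff_isRoot_charpoly] at h2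
    have h3 := Module.End.isRoot_of_hasEigenvalue h2
    rw [Matrix.minpoly_toLin'] at h3
    have h4 : minpoly (AlgebraicClosure F) (A.map (algebraMap F (AlgebraicClosure F))) ∣
        (minpoly F A).map (algebraMap F (AlgebraicClosure F)) := by
      apply minpoly.dvd
      rw [aeval_map_algebraMap]
      have h5 : A.map (algebraMap F (AlgebraicClosure F)) =
          (Algebra.ofId F (AlgebraicClosure F)).mapMatrix A := rfl
      rw [h5, aeval_algHom_apply, minpoly.aeval, map_zero]
    have h6 := h3.dvd h4
    rw [IsRoot, eval_map_algebraMap] at h6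
    exact h6
  · intro hx
    exact aeval_eq_zero_of_dvd_aeval_eq_zero (Matrix.minpoly_dvd_charpoly A) hx

lemma numEig_le_natDegree (A : Matrix (Fin n) (Fin n) F) :
    numEig A ≤ (minpoly F A).natDegree := by
  classical
  unfold numEig
  rw [rootSet_eq, rootSet_def, Set.ncard_coe_finset]
  refine (Multiset.toFinset_card_le _).trans ?_
  rw [aroots_def]
  exact (Polynomial.card_roots' _).trans (natDegree_map_le)

/-- A matrix is semisimple if and only if the degree of its minimal polynomial is the number of
the eigenvalues. -/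
lemma ss_iff_natDegree [CharZero F] (A : Matrix (Fin n) (Fin n) F) :
    SS A ↔ (minpoly F A).natDegree ≤ numEig A := by
  classical
  have hm : minpoly F A ≠ 0 := minpoly.ne_zero (isIntegral_mat A)
  have h := card_rootSet_eq_natDegree_iff_of_splits (K := AlgebraicClosure F) hm
    (IsAlgClosed.splits _)
  have hn : Fintype.card ((minpoly F A).rootSet (AlgebraicClosure F)) = numEig A := by
    unfold numEig
    rw [rootSet_eq, Set.ncard_eq_toFinset_card', Set.toFinset_card]
  rw [ss_iff, ← PerfectField.separable_iff_squarefree, ← h, hn]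
  exact ⟨fun h => h.ge, fun h => le_antisymm (numEig_le_natDegree A) h⟩

lemma numEig_conj (P : GL (Fin n) F) (A : Matrix (Fin n) (Fin n) F) :
    numEig (P.val * A * P⁻¹.val) = numEig A := by
  unfold numEig
  rw [Matrix.coe_units_inv, Matrix.charpoly_units_conj]

lemma ss_conj [CharZero F] (P : GL (Fin n) F) (A : Matrix (Fin n) (Fin n) F) :
    SS (P.val * A * P⁻¹.val) ↔ SS A := by
  rw [ss_iff_natDegree, ss_iff_natDegree, numEig_conj]
  have h : minpoly F (P.val * A * P⁻¹.val) = minpoly F A := by
    let e : Matrix (Fin n) (Fin n) F ≃ₐ[F] Matrix (Fin n) (Fin n) F :=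
      AlgEquiv.ofAlgHom
        { toFun := fun A => P.val * A * P⁻¹.val
          map_one' := by simp
          map_mul' := fun A B => by
            simp [mul_assoc]
          map_zero' := by simp
          map_add' := fun A B => by rw [mul_add, add_mul]
          commutes' := fun r => by
            rw [← Algebra.commutes, mul_assoc, Units.mul_inv, mul_one] }
        { toFun := fun A => P⁻¹.val * A * P.val
          map_one' := by simp
          map_mul' := fun A B => by
            simp [mul_assoc]
          map_zero' := by simp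
          map_add' := fun A B => by rw [mul_add, add_mul]
          commutes' := fun r => by
            rw [← Algebra.commutes, mul_assoc, Units.inv_mul, mul_one] }
        (by ext A : 1; simp [mul_assoc]) (by ext A : 1; simp [mul_assoc])
    exact minpoly.algEquiv_eq e A
  rw [h]

section poly

variable {Γ : Type*} [Group Γ] (ρ : Γ →* GL (Fin n) F)

lemma pow_entry_mem (k : ℕ) (i j : Fin n) : (fun γ => ((ρ γ).val ^ k) i j) ∈ polyFun ρ := by
  induction k generalizing i j with
  | zero =>
    have h : (fun γ : Γ => ((ρ γ).val ^ 0) i j) = algebraMap F (Γ → F) ((1 : Matrix _ _ F) i j) := by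
      funext γ
      rw [pow_zero]
      rfl
    rw [h]
    exact Subalgebra.algebraMap_mem _ _
  | succ k ih =>
    have h : (fun γ : Γ => ((ρ γ).val ^ (k + 1)) i j) =
        ∑ l, (fun γ => ((ρ γ).val ^ k) i l) * fun γ => (ρ γ).val l j := by
      funext γ
      rw [pow_succ, Matrix.mul_apply, Finset.sum_apply]
      rfl
    rw [h]
    exact Subalgebra.sum_mem _ fun l _ => Subalgebra.mul_mem _ (ih i l) (entry_mem ρ l j)

lemma linear_pow_mem (k : ℕ) (L : Matrix (Fin n) (Fin n) F →ₗ[F] F) :
    (fun γ => L ((ρ γ).val ^ k)) ∈ polyFun ρ := by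
  have h : (fun γ : Γ => L ((ρ γ).val ^ k)) =
      ∑ i, ∑ j, L (Matrix.single i j 1) • fun γ => ((ρ γ).val ^ k) i j := by
    funext γ
    conv_lhs => rw [Matrix.matrix_eq_sum_single ((ρ γ).val ^ k)]
    simp only [map_sum, Finset.sum_apply, Pi.smul_apply, smul_eq_mul]
    refine Finset.sum_congr rfl fun i _ => Finset.sum_congr rfl fun j _ => ?_
    have h1 : Matrix.single i j (((ρ γ).val ^ k) i j) =
        ((ρ γ).val ^ k) i j • Matrix.single i j (1 : F) := by
      rw [Matrix.smul_single, smul_eq_mul, mul_one]
    rw [h1, map_smul, smul_eq_mul, mul_comm]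
  rw [h]
  exact Subalgebra.sum_mem _ fun i _ => Subalgebra.sum_mem _ fun j _ =>
    Subalgebra.smul_mem _ (pow_entry_mem ρ k i j) _

lemma det_mem {r : ℕ} (M : Fin r → Fin r → Γ → F) (hM : ∀ i j, M i j ∈ polyFun ρ) :
    (fun γ => (Matrix.of fun i j => M i j γ).det) ∈ polyFun ρ := by
  have h : (fun γ => (Matrix.of fun i j => M i j γ).det) =
      ∑ σ : Equiv.Perm (Fin r), ((Equiv.Perm.sign σ : ℤ) : F) • ∏ i, M (σ i) i := by
    funext γ
    rw [Matrix.det_apply', Finset.sum_apply]
    refine Finset.sum_congr rfl fun σ _ => ?_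
    rw [Pi.smul_apply, Finset.prod_apply, smul_eq_mul]
    rfl
  rw [h]
  exact Subalgebra.sum_mem _ fun σ _ => Subalgebra.smul_mem _
    (Subalgebra.prod_mem _ fun i _ => hM _ _) _

lemma hank_mem (r : ℕ) : (fun γ => hank r (ρ γ).val) ∈ polyFun ρ :=
  det_mem ρ (fun (i j : Fin r) γ => ((ρ γ).val ^ ((i : ℕ) + j)).trace)
    fun i j => linear_pow_mem ρ _ (Matrix.traceLinearMap (Fin n) F F)

/-- If `A` has `r` eigenvalues and is not semisimple there is a polynomial function which is not
zero at `A` and vanishes at the semisimple matrices with at most `r` eigenvalues. -/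
lemma exists_fun [CharZero F] {r : ℕ} {γ₀ : Γ} (hr : numEig (ρ γ₀).val = r)
    (hns : ¬ SS (ρ γ₀).val) : ∃ f ∈ polyFun ρ, f γ₀ ≠ 0 ∧
      ∀ γ, SS (ρ γ).val → numEig (ρ γ).val ≤ r → f γ = 0 := by
  classical
  set A := (ρ γ₀).val with hA
  have hdeg : r < (minpoly F A).natDegree := by
    rw [ss_iff_natDegree, not_le, hr] at hns
    exact hns
  -- the powers of `A` are independent
  let T : (Fin (r + 1) → F) →ₗ[F] Matrix (Fin n) (Fin n) F :=
    Fintype.linearCombination F fun j : Fin (r + 1) => A ^ (j : ℕ)
  have hT : ∀ c, T c = ∑ j, c j • A ^ (j : ℕ) := fun c => Fintype.linearCombination_apply _ _ _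
  have hinj : LinearMap.ker T = ⊥ := by
    rw [LinearMap.ker_eq_bot']
    intro c hc
    by_contra hne
    let q : F[X] := ∑ j : Fin (r + 1), C (c j) * X ^ (j : ℕ)
    have hq : aeval A q = 0 := by
      rw [map_sum, ← hc, hT]
      refine Finset.sum_congr rfl fun j _ => ?_
      rw [map_mul, aeval_C, map_pow, aeval_X, ← Algebra.smul_def]
    have hqc : ∀ j : Fin (r + 1), q.coeff j = c j := by
      intro j
      rw [finset_sum_coeff, Finset.sum_eq_single j]
      · rw [coeff_C_mul_X_pow, if_pos rfl]
      · intro i _ hij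
        rw [coeff_C_mul_X_pow, if_neg]
        intro h
        exact hij (Fin.ext h.symm)
      · intro h; exact absurd (Finset.mem_univ j) h
    have hq0 : q ≠ 0 := by
      intro h0
      apply hne
      funext j
      rw [← hqc j, h0, coeff_zero]
      rfl
    have h1 := minpoly.degree_le_of_ne_zero F A hq0 hq
    have h2 : q.degree < ((r + 1 : ℕ) : WithBot ℕ) := by
      refine degree_sum_fin_lt c |>.trans_le ?_ |>.trans_le' ?_
      · exact le_rfl
      · exact le_of_eq rfl
    rw [degree_eq_natDegree (minpoly.ne_zero (isIntegral_mat A))] at h1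
    have h3 := lt_of_le_of_lt h1 h2
    rw [Nat.cast_lt] at h3
    omega
  obtain ⟨L, hL⟩ := LinearMap.exists_leftInverse_of_injective T hinj
  have hLA : ∀ j : Fin (r + 1), L (A ^ (j : ℕ)) = Pi.single j 1 := by
    intro j
    have h1 : T (Pi.single j 1) = A ^ (j : ℕ) := by
      rw [hT, Finset.sum_eq_single j]
      · rw [Pi.single_eq_same, one_smul]
      · intro i _ hij
        rw [Pi.single_eq_of_ne hij, zero_smul]
      · intro h; exact absurd (Finset.mem_univ j) h
    rw [← h1]
    exact LinearMap.congr_fun hL _
  refine ⟨fun γ => (Matrix.of fun i j : Fin (r + 1) => L ((ρ γ).val ^ (j : ℕ)) i).det,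
    det_mem ρ (fun i j γ => L ((ρ γ).val ^ (j : ℕ)) i) fun i j =>
      linear_pow_mem ρ _ ((LinearMap.proj i).comp L), ?_, ?_⟩
  · have h1 : (Matrix.of fun i j : Fin (r + 1) => L ((ρ γ₀).val ^ (j : ℕ)) i) = 1 := by
      ext i j
      rw [Matrix.of_apply, ← hA, hLA, Matrix.one_apply, Pi.single_apply]
    change (Matrix.of fun i j : Fin (r + 1) => L ((ρ γ₀).val ^ (j : ℕ)) i).det ≠ 0
    rw [h1, Matrix.det_one]
    exact one_ne_zero
  · intro γ hs hle
    rw [ss_iff_natDegree] at hs
    set B := (ρ γ).val
    have hd : (minpoly F B).natDegree < r + 1 := by omega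
    change (Matrix.of fun i j : Fin (r + 1) => L (B ^ (j : ℕ)) i).det = 0
    rw [← Matrix.exists_mulVec_eq_zero_iff]
    refine ⟨fun j => (minpoly F B).coeff j, ?_, ?_⟩
    · intro h0
      have h1 := congrFun h0 ⟨(minpoly F B).natDegree, hd⟩
      simp only [Pi.zero_apply] at h1
      rw [(minpoly.monic (isIntegral_mat B)).coeff_natDegree] at h1
      exact one_ne_zero h1
    · have h1 : ∑ j : Fin (r + 1), (minpoly F B).coeff j • B ^ (j : ℕ) = 0 := by
        rw [Fin.sum_univ_eq_sum_range fun j => (minpoly F B).coeff j • B ^ j,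
          ← aeval_eq_sum_range' hd, minpoly.aeval]
      have h2 := congrArg L h1
      rw [map_sum, map_zero] at h2
      funext i
      have h3 := congrFun h2 i
      rw [Finset.sum_apply] at h3
      rw [Matrix.mulVec, dotProduct]
      refine Eq.trans (Finset.sum_congr rfl fun j _ => ?_) h3
      rw [Matrix.of_apply, map_smul, Pi.smul_apply, smul_eq_mul, mul_comm]

end poly

end Pool.Agent.NH36.Fs
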