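import Pool.Agent.NH36.Fs.Eig
import Pool.Agent.NH36.Fs.Dens
import Pool.Agent.R401.Sup2
import Pool.Agent.W401.Cheb.Frob

/-!
# Semisimple Frobenius elements: the densities
-/

set_option autoImplicit false
set_option linter.unusedSectionVars false
set_option linter.deprecated false

namespace Pool.Agent.NH36.Fs

open MeasureTheory NumberField Filter Topology IsDedekindDomain Pool.Agent.W401.Cheb

variable {K : Type} [Field K] [NumberField K] {F : Type} [Field F] [TopologicalSpace F]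
  [IsTopologicalRing F] [T1Space F] {n : ℕ} (ρ : GK K →* GL (Fin n) F)
  (hρ : ∀ i j, Continuous fun γ => (ρ γ).val i j)

include hρ in
theorem null_of_fun {Δ : Subgroup (GK K)} (hΔ : IsOpen (Δ : Set (GK K))) (hc : Conn ρ Δ)
    (A : Set (GK K)) (hA : ∀ σ ∈ A, ∀ τ : GK K, τ * σ * τ⁻¹ ∈ A)
    (h : ∀ q : GK K ⧸ Δ, ∃ γ₀ : GK K, (γ₀ : GK K ⧸ Δ) = q ∧ ∃ f ∈ polyFun ρ, f γ₀ ≠ 0 ∧
      ∀ x ∈ A, (x : GK K ⧸ Δ) = q → f x = 0) :
    Tendsto (dens fun v : HeightOneSpectrum (𝓞 K) => ∃ σ ∈ A, IsFrob v σ) atTop (𝓝 0) := by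
  classical
  let _ : MeasurableSpace (GK K) := borel (GK K)
  have _ : BorelSpace (GK K) := ⟨rfl⟩
  let μ : Measure (GK K) := Measure.haarMeasure ⊤
  have hprob : IsProbabilityMeasure μ := ⟨by
    have := Measure.haarMeasure_self (K₀ := (⊤ : TopologicalSpace.PositiveCompacts (GK K)))
    exact this⟩
  have hfin : Finite (GK K ⧸ Δ) := Δ.quotient_finite_of_isOpen hΔ
  have hΔc : IsClosed (Δ : Set (GK K)) := Δ.isClosed_of_isOpen hΔ
  choose γ₀ hγ₀ f hf hfγ hfA using h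
  have hcl : ∀ q : GK K ⧸ Δ, IsClosed {x : GK K | (x : GK K ⧸ Δ) = q ∧ f q x = 0} := by
    intro q
    have h1 : {x : GK K | (x : GK K ⧸ Δ) = q ∧ f q x = 0} =
        ((fun x => (γ₀ q)⁻¹ * x) ⁻¹' (Δ : Set (GK K))) ∩ {x | f q x = 0} := by
      ext x
      simp only [Set.mem_setOf_eq, Set.mem_inter_iff, Set.mem_preimage, SetLike.mem_coe]
      rw [← QuotientGroup.eq, hγ₀]
      exact and_congr_left fun _ => eq_comm
    rw [h1]
    exact (hΔc.preimage (continuous_const.mul continuous_id)).inter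
      (isClosed_singleton.preimage (continuous_of_mem ρ hρ (hf q)))
  refine dens_null μ A (⋃ q, {x : GK K | (x : GK K ⧸ Δ) = q ∧ f q x = 0}) ?_
    (isClosed_iUnion_of_finite hcl) ?_ hA
  · intro x hx
    exact Set.mem_iUnion.2 ⟨(x : GK K ⧸ Δ), rfl, hfA _ x hx rfl⟩
  · rw [measure_iUnion_null_iff]
    intro q
    by_contra hne
    have h1 := measure_preimage_mul μ (γ₀ q) {x : GK K | (x : GK K ⧸ Δ) = q ∧ f q x = 0}
    have h2 : (fun h => γ₀ q * h) ⁻¹' {x : GK K | (x : GK K ⧸ Δ) = q ∧ f q x = 0} =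
        {x | x ∈ Δ ∧ f q (γ₀ q * x) = 0} := by
      ext x
      simp only [Set.mem_preimage, Set.mem_setOf_eq]
      refine and_congr_left fun _ => ?_
      constructor
      · intro hx
        have h3 := QuotientGroup.eq.1 ((hγ₀ q).trans hx.symm)
        rwa [inv_mul_cancel_left] at h3
      · intro hx
        exact (QuotientGroup.mk_mul_of_mem _ hx).trans (hγ₀ q)
    rw [h2] at h1
    have h4 := eq_zero_of_measure μ ρ hρ hΔ hc (left_mem ρ (γ₀ q) (hf q)) (by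
      rw [h1]
      exact hne) 1 Δ.one_mem
    simp only [mul_one] at h4
    exact hfγ q h4

/-- The maximal number of eigenvalues on a coset. -/
noncomputable def rk (Δ : Subgroup (GK K)) (σ : GK K) : ℕ :=
  sSup {k | ∃ u ∈ Δ, numEig (ρ (σ * u)).val = k}

variable (Δ : Subgroup (GK K))

omit [TopologicalSpace F] [IsTopologicalRing F] [T1Space F] in
lemma rk_bdd (σ : GK K) : BddAbove {k | ∃ u ∈ Δ, numEig (ρ (σ * u)).val = k} :=
  ⟨n, by rintro _ ⟨u, -, rfl⟩; exact numEig_le _⟩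

omit [TopologicalSpace F] [IsTopologicalRing F] [T1Space F] in
lemma rk_spec (σ : GK K) : ∃ u ∈ Δ, numEig (ρ (σ * u)).val = rk ρ Δ σ :=
  Nat.sSup_mem (s := {k | ∃ u ∈ Δ, numEig (ρ (σ * u)).val = k}) ⟨_, 1, Δ.one_mem, rfl⟩
    (rk_bdd ρ Δ σ)

omit [TopologicalSpace F] [IsTopologicalRing F] [T1Space F] in
lemma le_rk (σ : GK K) {u : GK K} (hu : u ∈ Δ) : numEig (ρ (σ * u)).val ≤ rk ρ Δ σ :=
  le_csSup (rk_bdd ρ Δ σ) ⟨u, hu, rfl⟩

omit [TopologicalSpace F] [IsTopologicalRing F] [T1Space F] in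
lemma le_rk' (σ : GK K) : numEig (ρ σ).val ≤ rk ρ Δ σ := by
  have := le_rk ρ Δ σ Δ.one_mem
  rwa [mul_one] at this

omit [TopologicalSpace F] [IsTopologicalRing F] [T1Space F] in
lemma rk_mul (σ : GK K) {u : GK K} (hu : u ∈ Δ) : rk ρ Δ (σ * u) = rk ρ Δ σ := by
  unfold rk
  congr 1
  ext k
  constructor
  · rintro ⟨w, hw, rfl⟩
    exact ⟨u * w, Δ.mul_mem hu hw, by rw [mul_assoc]⟩
  · rintro ⟨w, hw, rfl⟩
    exact ⟨u⁻¹ * w, Δ.mul_mem (Δ.inv_mem hu) hw, by rw [← mul_assoc, mul_assoc σ, mul_inv_cancel,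
      mul_one]⟩

omit [TopologicalSpace F] [IsTopologicalRing F] [T1Space F] in
lemma numEig_conj' (σ τ : GK K) : numEig (ρ (τ * σ * τ⁻¹)).val = numEig (ρ σ).val := by
  rw [map_mul, map_mul, map_inv, Units.val_mul, Units.val_mul]
  exact numEig_conj _ _

omit [TopologicalSpace F] [IsTopologicalRing F] [T1Space F] in
lemma ss_conj' [CharZero F] (σ τ : GK K) : SS (ρ (τ * σ * τ⁻¹)).val ↔ SS (ρ σ).val := by
  rw [map_mul, map_mul, map_inv, Units.val_mul, Units.val_mul]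
  exact ss_conj _ _

omit [TopologicalSpace F] [IsTopologicalRing F] [T1Space F] in
lemma rk_conj [Δ.Normal] (σ τ : GK K) : rk ρ Δ (τ * σ * τ⁻¹) = rk ρ Δ σ := by
  unfold rk
  congr 1
  ext k
  constructor
  · rintro ⟨w, hw, rfl⟩
    refine ⟨τ⁻¹ * w * τ, ?_, ?_⟩
    · have := ‹Δ.Normal›.conj_mem w hw τ⁻¹
      rwa [inv_inv] at this
    · rw [← numEig_conj' ρ _ τ]
      congr 3
      group
  · rintro ⟨w, hw, rfl⟩
    refine ⟨τ * w * τ⁻¹, ‹Δ.Normal›.conj_mem w hw τ, ?_⟩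
    rw [← numEig_conj' ρ (σ * w) τ]
    congr 3
    group

/-- All elements of the coset with the maximal number of eigenvalues are semisimple. -/
def Good (σ : GK K) : Prop :=
  ∀ u ∈ Δ, numEig (ρ (σ * u)).val = rk ρ Δ σ → SS (ρ (σ * u)).val

omit [TopologicalSpace F] [IsTopologicalRing F] [T1Space F] in
lemma good_mul (σ : GK K) {u : GK K} (hu : u ∈ Δ) (h : Good ρ Δ σ) : Good ρ Δ (σ * u) := by
  intro w hw hr
  rw [mul_assoc] at hr ⊢
  rw [rk_mul ρ Δ σ hu] at hr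
  exact h _ (Δ.mul_mem hu hw) hr

omit [TopologicalSpace F] [IsTopologicalRing F] [T1Space F] in
lemma good_conj [CharZero F] [Δ.Normal] (σ τ : GK K) (h : Good ρ Δ σ) :
    Good ρ Δ (τ * σ * τ⁻¹) := by
  intro w hw hr
  have h1 : τ * σ * τ⁻¹ * w = τ * (σ * (τ⁻¹ * w * τ)) * τ⁻¹ := by group
  rw [h1] at hr ⊢
  rw [numEig_conj', rk_conj] at hr
  rw [ss_conj']
  refine h _ ?_ hr
  have := ‹Δ.Normal›.conj_mem w hw τ⁻¹
  rwa [inv_inv] at this

lemma eq_mul {x y : GK K} (h : (x : GK K ⧸ Δ) = (y : GK K ⧸ Δ)) : ∃ u ∈ Δ, y = x * u :=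
  ⟨x⁻¹ * y, QuotientGroup.eq.1 h, by rw [mul_inv_cancel_left]⟩

include hρ in
/-- The places with less eigenvalues than possible have density zero. -/
theorem null_small [CharZero F] (hΔ : IsOpen (Δ : Set (GK K))) [Δ.Normal] (hc : Conn ρ Δ) :
    Tendsto (dens fun v : HeightOneSpectrum (𝓞 K) =>
      ∃ σ ∈ {σ | numEig (ρ σ).val < rk ρ Δ σ}, IsFrob v σ) atTop (𝓝 0) := by
  refine null_of_fun ρ hρ hΔ hc _ ?_ ?_
  · intro σ hσ τ
    rw [Set.mem_setOf_eq, numEig_conj', rk_conj]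
    exact hσ
  · intro q
    induction q using QuotientGroup.induction_on with
    | H σ =>
    obtain ⟨u, hu, hr⟩ := rk_spec ρ Δ σ
    refine ⟨σ * u, QuotientGroup.mk_mul_of_mem _ hu, fun γ => hank (rk ρ Δ σ) (ρ γ).val,
      hank_mem ρ _, hank_ne_zero hr, ?_⟩
    intro x hx hxq
    obtain ⟨w, hw, rfl⟩ := eq_mul Δ hxq.symm
    rw [Set.mem_setOf_eq, rk_mul ρ Δ σ hw] at hx
    exact hank_eq_zero hx

include hρ in
/-- The places with semisimple Frobenius elements in cosets which are not good have density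
zero. -/
theorem null_bad [CharZero F] (hΔ : IsOpen (Δ : Set (GK K))) [Δ.Normal] (hc : Conn ρ Δ) :
    Tendsto (dens fun v : HeightOneSpectrum (𝓞 K) =>
      ∃ σ ∈ {σ | SS (ρ σ).val ∧ ¬ Good ρ Δ σ}, IsFrob v σ) atTop (𝓝 0) := by
  refine null_of_fun ρ hρ hΔ hc _ ?_ ?_
  · rintro σ ⟨hσ, hg⟩ τ
    refine ⟨(ss_conj' ρ σ τ).2 hσ, fun hg' => hg ?_⟩
    have h1 := good_conj ρ Δ _ τ⁻¹ hg'
    have h2 : τ⁻¹ * (τ * σ * τ⁻¹) * τ⁻¹⁻¹ = σ := by group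
    rwa [h2] at h1
  · intro q
    induction q using QuotientGroup.induction_on with
    | H σ =>
    by_cases hg : Good ρ Δ σ
    · refine ⟨σ, rfl, 1, Subalgebra.one_mem _, one_ne_zero, ?_⟩
      rintro x ⟨-, hx⟩ hxq
      obtain ⟨w, hw, rfl⟩ := eq_mul Δ hxq.symm
      exact absurd (good_mul ρ Δ σ hw hg) hx
    · have hg' := hg
      unfold Good at hg
      push Not at hg
      obtain ⟨u, hu, hr, hns⟩ := hg
      obtain ⟨f, hf, hfne, hf0⟩ := exists_fun ρ hr hns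
      refine ⟨σ * u, QuotientGroup.mk_mul_of_mem _ hu, f, hf, hfne, ?_⟩
      rintro x ⟨hx, -⟩ hxq
      obtain ⟨w, hw, rfl⟩ := eq_mul Δ hxq.symm
      exact hf0 _ hx (le_rk ρ Δ σ hw)

/-- The conjugacy class of the coset `σ₀ U`. -/
def Cls (U : Subgroup (GK K)) (σ₀ : GK K) : Set (GK K) :=
  {σ | ∃ τ : GK K, ∃ u ∈ U, σ = τ * σ₀ * τ⁻¹ * u}

lemma cls_conj (U : Subgroup (GK K)) [U.Normal] (σ₀ : GK K) {σ : GK K} (h : σ ∈ Cls U σ₀)
    (τ : GK K) : τ * σ * τ⁻¹ ∈ Cls U σ₀ := by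
  obtain ⟨τ', u, hu, rfl⟩ := h
  exact ⟨τ * τ', τ * u * τ⁻¹, ‹U.Normal›.conj_mem u hu τ, by group⟩

omit [TopologicalSpace F] [IsTopologicalRing F] [T1Space F] in
lemma rk_cls [Δ.Normal] (σ₀ : GK K) {σ : GK K} (h : σ ∈ Cls Δ σ₀) :
    rk ρ Δ σ = rk ρ Δ σ₀ := by
  obtain ⟨τ', u, hu, rfl⟩ := h
  rw [rk_mul ρ Δ _ hu, rk_conj]

omit [TopologicalSpace F] [IsTopologicalRing F] [T1Space F] in
lemma good_cls [CharZero F] [Δ.Normal] (σ₀ : GK K) {σ : GK K} (h : σ ∈ Cls Δ σ₀) :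
    Good ρ Δ σ ↔ Good ρ Δ σ₀ := by
  obtain ⟨τ, u, hu, rfl⟩ := h
  constructor
  · intro h
    have h1 := good_mul ρ Δ _ (Δ.inv_mem hu) h
    rw [mul_inv_cancel_right] at h1
    have h2 := good_conj ρ Δ _ τ⁻¹ h1
    have h3 : τ⁻¹ * (τ * σ₀ * τ⁻¹) * τ⁻¹⁻¹ = σ₀ := by group
    rwa [h3] at h2
  · intro h
    exact good_mul ρ Δ _ hu (good_conj ρ Δ _ τ h)

/-- All Frobenius elements at a place which is not ramified are conjugate. -/
lemma ss_all [CharZero F] {v : HeightOneSpectrum (𝓞 K)} (hv : ∀ σ, IsInert v σ → ρ σ = 1)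
    {σ τ : GK K} (hσ : IsFrob v σ) (hτ : IsFrob v τ) (h : SS (ρ σ).val) : SS (ρ τ).val := by
  obtain ⟨g, ι, hι, rfl⟩ := (Pool.Agent.W401.Frob.main K).2.1 v σ τ hσ hτ
  rw [map_mul, hv ι hι, mul_one]
  exact (ss_conj' ρ σ g).2 h

theorem squeeze_zero_dens {P Q : HeightOneSpectrum (𝓞 K) → Prop} (h : ∀ v, P v → Q v)
    (hQ : Tendsto (dens Q) atTop (𝓝 0)) : Tendsto (dens P) atTop (𝓝 0) :=
  squeeze_zero (fun N => by unfold dens; positivity)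
    (fun N => Pool.Agent.R401.Eng.dens_le h N) hQ

include hρ in
/-- **The density of the places with semisimple Frobenius elements.** -/
theorem density [CharZero F] (B : Set (HeightOneSpectrum (𝓞 K))) (hB : B.Finite)
    (hunr : ∀ v ∉ B, ∀ σ, IsInert v σ → ρ σ = 1)
    (hΔ : IsOpen (Δ : Set (GK K))) [Δ.Normal] (hc : Conn ρ Δ) :
    Tendsto (dens fun v : HeightOneSpectrum (𝓞 K) => v ∉ B ∧ ∀ σ, IsFrob v σ → SS (ρ σ).val) atTop
      (𝓝 ((((QuotientGroup.mk : GK K → GK K ⧸ Δ) '' {σ | Good ρ Δ σ}).ncard : ℝ) /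
        (Nat.card (GK K ⧸ Δ) : ℝ))) := by
  have hcheb := Pool.Agent.Y142.chebK K Δ hΔ {σ | Good ρ Δ σ} (fun σ hσ τ => good_conj ρ Δ σ τ hσ)
    (fun σ hσ u hu => good_mul ρ Δ σ hu hσ)
  have hsmall := null_small ρ hρ Δ hΔ hc
  have hbad := null_bad ρ hρ Δ hΔ hc
  have hfin := Pool.Agent.R401.Sup2.dens_fin (fun v => v ∈ B) hB
  have hup := hcheb.add hbad
  have hlo := (hcheb.sub hsmall).sub hfin
  simp only [add_zero, sub_zero] at hup hlo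
  refine tendsto_of_tendsto_of_tendsto_of_le_of_le hlo hup ?_ ?_
  · intro N
    have h1 := Pool.Agent.R401.Sup2.card_or (fun v : HeightOneSpectrum (𝓞 K) =>
      (v ∉ B ∧ ∀ σ, IsFrob v σ → SS (ρ σ).val) ∨
        ∃ σ ∈ {σ | numEig (ρ σ).val < rk ρ Δ σ}, IsFrob v σ) (fun v => v ∈ B) N
    have h2 := Pool.Agent.R401.Sup2.card_or (fun v : HeightOneSpectrum (𝓞 K) =>
      v ∉ B ∧ ∀ σ, IsFrob v σ → SS (ρ σ).val)
        (fun v => ∃ σ ∈ {σ | numEig (ρ σ).val < rk ρ Δ σ}, IsFrob v σ) N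
    have h3 : dens (fun v : HeightOneSpectrum (𝓞 K) => ∃ σ ∈ {σ | Good ρ Δ σ}, IsFrob v σ) N ≤
        dens (fun v : HeightOneSpectrum (𝓞 K) => ((v ∉ B ∧ ∀ σ, IsFrob v σ → SS (ρ σ).val) ∨
        ∃ σ ∈ {σ | numEig (ρ σ).val < rk ρ Δ σ}, IsFrob v σ) ∨ v ∈ B) N := by
      refine Pool.Agent.R401.Eng.dens_le (fun v => ?_) N
      rintro ⟨σ, hσ, hv⟩
      by_cases hvB : v ∈ B
      · exact Or.inr hvB
      refine Or.inl ?_
      rcases (le_rk' ρ Δ σ).lt_or_eq with hlt | heq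
      · exact Or.inr ⟨σ, hlt, hv⟩
      · left
        refine ⟨hvB, fun τ hτ => ss_all ρ (hunr v hvB) hv hτ ?_⟩
        have h4 := hσ 1 Δ.one_mem
        rw [mul_one] at h4
        exact h4 heq
    linarith
  · intro N
    have h1 := Pool.Agent.R401.Sup2.card_or (fun v : HeightOneSpectrum (𝓞 K) =>
      ∃ σ ∈ {σ | Good ρ Δ σ}, IsFrob v σ)
        (fun v => ∃ σ ∈ {σ | SS (ρ σ).val ∧ ¬ Good ρ Δ σ}, IsFrob v σ) N
    refine le_trans (Pool.Agent.R401.Eng.dens_le (fun v => ?_) N) h1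
    rintro ⟨-, hv⟩
    obtain ⟨σ, hσ⟩ := (Pool.Agent.W401.Frob.main K).1 v
    by_cases hg : Good ρ Δ σ
    · exact Or.inl ⟨σ, hg, hσ⟩
    · exact Or.inr ⟨σ, ⟨hv σ hσ, hg⟩, hσ⟩

include hρ in
/-- **The zero-one law.** -/
theorem zero_one [CharZero F] (hΔ : IsOpen (Δ : Set (GK K))) [Δ.Normal] (hc : Conn ρ Δ)
    (σ₀ : GK K) :
    Tendsto (dens fun v : HeightOneSpectrum (𝓞 K) => ∃ σ ∈ Cls Δ σ₀, IsFrob v σ ∧
      numEig (ρ σ).val ≠ rk ρ Δ σ₀) atTop (𝓝 0) ∧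
    ((∀ σ ∈ Cls Δ σ₀, numEig (ρ σ).val = rk ρ Δ σ₀ → SS (ρ σ).val) ∨
      Tendsto (dens fun v : HeightOneSpectrum (𝓞 K) => ∃ σ ∈ Cls Δ σ₀, IsFrob v σ ∧
        SS (ρ σ).val) atTop (𝓝 0)) := by
  constructor
  · refine squeeze_zero_dens ?_ (null_small ρ hρ Δ hΔ hc)
    rintro v ⟨σ, hσ, hv, hne⟩
    refine ⟨σ, ?_, hv⟩
    rw [← rk_cls ρ Δ σ₀ hσ] at hne
    exact lt_of_le_of_ne (le_rk' ρ Δ σ) hne
  · by_cases hg : Good ρ Δ σ₀
    · left
      intro σ hσ hr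
      have h1 := ((good_cls ρ Δ σ₀ hσ).2 hg) 1 Δ.one_mem
      rw [mul_one] at h1
      exact h1 (hr.trans (rk_cls ρ Δ σ₀ hσ).symm)
    · right
      refine squeeze_zero_dens ?_ (null_bad ρ hρ Δ hΔ hc)
      rintro v ⟨σ, hσ, hv, hs⟩
      exact ⟨σ, ⟨hs, fun h => hg ((good_cls ρ Δ σ₀ hσ).1 h)⟩, hv⟩

end Pool.Agent.NH36.Fs
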